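import Pool.Agent.Ldc.Final
set_option autoImplicit false

/-!
# Linear locally decodable codes with a transitive abelian symmetry group of bounded exponent
prime to the characteristic have superpolynomial length
-/
namespace Pool.Agent.Results.MP_d4aa67_lc.AbelianInvariant
open Finset

/-- The encoding `E : F^k → F^X` is locally decodable from a `δ` fraction of errors with `t` queries
(and success probability at least `2/3`): for every message symbol `i` there is a randomised
algorithm, i.e. a probability distribution `p` on finitely many deterministic ones.  The `j`-th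
deterministic algorithm reads, on input `r : X → F`, the set `Q j r` of at most `t` positions
(which may be chosen adaptively) and returns `D j r`; both are determined by the symbols of `r` at the
positions read.  Whenever `r` differs from `E x` in fewer than `δ |X|` positions the output is `x i`
with probability at least `2/3`. -/
def LocallyDecodable {F X : Type} [Fintype X] [DecidableEq F] {k : ℕ} (t : ℕ) (δ : ℝ)
    (E : (Fin k → F) → X → F) : Prop :=
  ∀ i : Fin k, ∃ (N : ℕ) (p : Fin N → ℝ) (Q : Fin N → (X → F) → Finset X)
      (D : Fin N → (X → F) → F),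
    (∀ j, 0 ≤ p j) ∧ ∑ j, p j = 1 ∧ (∀ j r, (Q j r).card ≤ t) ∧
    (∀ j r r', (∀ a ∈ Q j r, r a = r' a) → Q j r' = Q j r ∧ D j r' = D j r) ∧
    ∀ (x : Fin k → F) (r : X → F),
      ((univ.filter (fun a => r a ≠ E x a)).card : ℝ) < δ * (Fintype.card X : ℝ) →
      (2 : ℝ) / 3 ≤ ∑ j ∈ univ.filter (fun j => D j r = x i), p j

theorem transfer {F X G : Type} [Fintype X] [Fintype G] [DecidableEq F] {k : ℕ} (t : ℕ) (δ : ℝ)
    (E : (Fin k → F) → X → F) (e : G ≃ X) (h : LocallyDecodable t δ E) (i : Fin k) :
    Pool.Agent.Ldc.Decodable t δ (fun x g => E x (e g)) i := by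
  obtain ⟨N, p, Q, D, hp, hp1, hQ, hQD, hdec⟩ := h i
  refine ⟨N, p, fun j r => (Q j (fun a => r (e.symm a))).map e.symm.toEmbedding,
    fun j r => D j (fun a => r (e.symm a)), hp, hp1, ?_, ?_, ?_⟩
  · intro j r
    rw [card_map]
    exact hQ j _
  · intro j r r' hr
    have := hQD j (fun a => r (e.symm a)) (fun a => r' (e.symm a)) (fun a ha => by
      apply hr
      exact mem_map.2 ⟨a, ha, rfl⟩)
    exact ⟨congrArg (fun s => s.map e.symm.toEmbedding) this.1, this.2⟩
  · intro x r hr
    apply hdec x (fun a => r (e.symm a))
    have h1 : (univ.filter (fun a : X => r (e.symm a) ≠ E x a)).card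
        = (univ.filter (fun g : G => r g ≠ E x (e g))).card := by
      apply Finset.card_bij (fun a _ => e.symm a)
      · intro a ha
        simpa using ha
      · intro a _ b _ hab
        exact e.symm.injective hab
      · intro g hg
        exact ⟨e g, by simpa using hg, by simp⟩
    rw [h1, ← Fintype.card_congr e]
    exact hr

/-- **Linear locally decodable codes invariant under a transitive abelian group of bounded exponent
(prime to the characteristic) have superpolynomial length.**  Let `F` be a finite field, `m` an
integer that is non-zero in `F`, `t` a number of queries and `C` any exponent.  There are `ε > 0` and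
`k₀` such that for `k ≥ k₀`: if `E : F^k → F^X` is linear, an abelian group `A` of exponent dividing
`m` acts transitively on the set `X` of coordinates and leaves the code invariant, and `E` is locally
decodable with `t` queries from a fraction `δ ≥ |X|^{-ε}` of errors, then `|X| ≥ k^C`. -/
theorem result (F : Type) [Field F] [Fintype F] [DecidableEq F] (m t : ℕ) (hm : (m : F) ≠ 0)
    (C : ℝ) :
    ∃ ε : ℝ, 0 < ε ∧ ∃ k₀ : ℕ, ∀ k : ℕ, k₀ ≤ k →
      ∀ (X A : Type) [Fintype X] [Nonempty X] [AddCommGroup A] [AddAction A X],
        (∀ a : A, m • a = 0) → (∀ x y : X, ∃ a : A, a +ᵥ x = y) →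
      ∀ E : (Fin k → F) →ₗ[F] (X → F),
        (∀ (s : Fin k → F) (a : A), ∃ s' : Fin k → F, ∀ x, E s' x = E s (a +ᵥ x)) →
      ∀ δ : ℝ, (Fintype.card X : ℝ) ^ (-ε) ≤ δ → LocallyDecodable t δ (fun s => E s) →
        (k : ℝ) ^ C ≤ (Fintype.card X : ℝ) := by
  obtain ⟨ε, hε, k₀, hk₀⟩ := Pool.Agent.Ldc.final F m t hm C
  refine ⟨ε, hε, k₀, ?_⟩
  intro k hk X A _ hX _ _ hA htrans E hE δ hδ hdec
  classical
  obtain ⟨x₀⟩ := hX
  have hbij : Function.Bijective (AddAction.ofQuotientStabilizer A x₀) := by
    refine ⟨AddAction.injective_ofQuotientStabilizer A x₀, fun y => ?_⟩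
    obtain ⟨a, ha⟩ := htrans x₀ y
    exact ⟨(a : A ⧸ AddAction.stabilizer A x₀), by rw [AddAction.ofQuotientStabilizer_mk, ha]⟩
  set e : (A ⧸ AddAction.stabilizer A x₀) ≃ X := Equiv.ofBijective _ hbij with he
  let _ : Fintype (A ⧸ AddAction.stabilizer A x₀) := Fintype.ofEquiv X e.symm
  have hcard : Fintype.card (A ⧸ AddAction.stabilizer A x₀) = Fintype.card X :=
    Fintype.card_congr e
  have hadd : ∀ (g : A ⧸ AddAction.stabilizer A x₀) (a : A),
      e (g + (a : A ⧸ AddAction.stabilizer A x₀)) = a +ᵥ e g := by
    intro g a
    induction g using QuotientAddGroup.induction_on with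
    | H b =>
      rw [← QuotientAddGroup.mk_add]
      simp only [he, Equiv.ofBijective_apply, AddAction.ofQuotientStabilizer_mk]
      rw [add_comm, add_vadd]
  have := hk₀ k hk (A ⧸ AddAction.stabilizer A x₀) (by
      intro g
      induction g using QuotientAddGroup.induction_on with
      | H b => rw [← QuotientAddGroup.mk_nsmul, hA b, QuotientAddGroup.mk_zero])
    ((LinearMap.funLeft F F e) ∘ₗ E) (by
      intro s h
      induction h using QuotientAddGroup.induction_on with
      | H a =>
        obtain ⟨s', hs'⟩ := hE s a
        refine ⟨s', fun g => ?_⟩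
        simp only [LinearMap.comp_apply, LinearMap.funLeft_apply]
        rw [hadd, hs']) δ (by rw [hcard]; exact hδ)
    (fun i => transfer t δ (fun s => E s) e hdec i)
  rw [hcard] at this
  exact this

end Pool.Agent.Results.MP_d4aa67_lc.AbelianInvariant
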